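import Mathlib
import Pool.Agent.Helper550.Semi
import Pool.Agent.H481R3.OMMain

set_option autoImplicit false

/-!
# A commutative Banach algebra with zero-dimensional spectrum and linearly dense idempotents whose
multiplication is not open

The algebra is a weighted `ℓ¹` algebra of the semilattice of all finite subsets of a countable set
(with union as the operation), the norms of the generating idempotents growing exponentially.
-/

namespace Pool.Agent.Results.MP_9cb16a_an.MultiplicationNotOpen

open Pool.Agent.Helper550.Semi Pool.Agent.H481R3.OM TopologicalSpace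

/-- Multiplication in the Banach algebra `A` is open: `(a, b) ↦ a b` is an open map. -/
def OpenMultiplication (A : Type) [NormedCommRing A] : Prop :=
  IsOpenMap (fun p : A × A => p.1 * p.2)

/-- Multiplication in the Banach algebra `A` is uniformly open: for every `ε > 0` there is `δ > 0`
such that `B(ab, δ) ⊆ B(a, ε) · B(b, ε)` for all `a, b` of norm at most one. -/
def UniformlyOpenMultiplication (A : Type) [NormedCommRing A] : Prop :=
  ∀ ε : ℝ, 0 < ε → ∃ δ : ℝ, 0 < δ ∧ ∀ a b : A, ‖a‖ ≤ 1 → ‖b‖ ≤ 1 →
    ∀ c ∈ Metric.ball (a * b) δ, ∃ x ∈ Metric.ball a ε, ∃ y ∈ Metric.ball b ε, x * y = c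

/-- linear density of the idempotents implies that the Gelfand space is zero-dimensional -/
theorem zero_dim {A : Type} [NormedCommRing A] [NormedAlgebra ℂ A] [CompleteSpace A]
    (hd : Dense ((Submodule.span ℂ {e : A | e * e = e} : Submodule ℂ A) : Set A)) :
    IsTopologicalBasis {s : Set (WeakDual.characterSpace ℂ A) | IsClopen s} := by
  have hts : TotallySeparatedSpace (WeakDual.characterSpace ℂ A) := by
    refine ⟨?_⟩
    intro φ _ ψ _ hne
    obtain ⟨e, he, hφψ⟩ : ∃ e : A, e * e = e ∧ φ e ≠ ψ e := by
      by_contra hcon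
      push Not at hcon
      apply hne
      have hclosed : IsClosed {a : A | φ a = ψ a} :=
        isClosed_eq (map_continuous φ) (map_continuous ψ)
      have hsub : ((Submodule.span ℂ {e : A | e * e = e} : Submodule ℂ A) : Set A) ⊆
          {a : A | φ a = ψ a} := by
        intro a ha
        have ha' : a ∈ Submodule.span ℂ {e : A | e * e = e} := ha
        clear ha
        induction ha' using Submodule.span_induction with
        | mem x hx => exact hcon x hx
        | zero => simp only [Set.mem_setOf_eq, map_zero]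
        | add x y _ _ hx hy =>
          simp only [Set.mem_setOf_eq] at hx hy ⊢
          rw [map_add, map_add, hx, hy]
        | smul c x _ hx =>
          simp only [Set.mem_setOf_eq] at hx ⊢
          rw [map_smul, map_smul, hx]
      have hall : ∀ a : A, φ a = ψ a := by
        intro a
        have : a ∈ closure ((Submodule.span ℂ {e : A | e * e = e} : Submodule ℂ A) : Set A) := by
          rw [hd.closure_eq]
          exact Set.mem_univ _
        exact closure_minimal hsub hclosed this
      exact DFunLike.ext _ _ hall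
    have hval : ∀ χ : WeakDual.characterSpace ℂ A, χ e = 0 ∨ χ e = 1 := by
      intro χ
      have h1 : χ e * χ e = χ e := by rw [← map_mul, he]
      have h2 : χ e * (χ e - 1) = 0 := by rw [mul_sub, h1, mul_one, sub_self]
      rcases mul_eq_zero.1 h2 with h3 | h3
      · exact Or.inl h3
      · exact Or.inr (sub_eq_zero.1 h3)
    have hcont : Continuous fun χ : WeakDual.characterSpace ℂ A => χ e :=
      (WeakDual.eval_continuous e).comp continuous_subtype_val
    have hopen : ∀ z : ℂ, IsOpen {χ : WeakDual.characterSpace ℂ A | χ e ≠ z} := fun z =>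
      isOpen_ne.preimage hcont
    refine ⟨{χ | χ e ≠ ψ e}, {χ | χ e ≠ φ e}, hopen _, hopen _, hφψ, hφψ.symm, ?_, ?_⟩
    · intro χ _
      by_cases h : χ e = ψ e
      · right
        rw [Set.mem_setOf_eq, h]
        exact hφψ.symm
      · left
        exact h
    · rw [Set.disjoint_left]
      intro χ h1 h2
      rw [Set.mem_setOf_eq] at h1 h2
      rcases hval χ with h | h <;> rcases hval φ with h3 | h3 <;> rcases hval ψ with h4 | h4 <;>
        simp only [h, h3, h4, ne_eq, not_true_eq_false] at h1 h2 hφψ
  haveI := hts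
  exact isTopologicalBasis_isClopen

/-- Negative answer to both parts of Q1: there is a commutative unital Banach algebra whose maximal
ideal space is zero-dimensional and whose idempotents are linearly dense, and whose multiplication
is neither open nor uniformly open. -/
theorem result : ∃ (A : Type) (_ : NormedCommRing A) (_ : NormedAlgebra ℂ A) (_ : CompleteSpace A),
    ‖(1 : A)‖ = 1 ∧
    IsTopologicalBasis {s : Set (WeakDual.characterSpace ℂ A) | IsClopen s} ∧
    Dense ((Submodule.span ℂ {e : A | e * e = e} : Submodule ℂ A) : Set A) ∧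
    ¬ OpenMultiplication A ∧ ¬ UniformlyOpenMultiplication A := by
  obtain ⟨A, iR, iA, iC, e, he, he1, hemul⟩ := exists_alg isW
  have h1 : ‖(1 : A)‖ = 1 := by rw [he, he1, norm_sg]
  let E : A ≃ₗᵢ[ℂ] L FS := LinearIsometryEquiv.mk e (fun x => (he x).symm)
  have hE : ∀ x, E x = e x := fun x => rfl
  have hEm : ∀ x y, E (x * y) = cv isW (E x) (E y) := hemul
  have hE1 : E 1 = sg (toFS ∅) := he1
  -- density of the idempotents
  have hdense : Dense ((Submodule.span ℂ {e : A | e * e = e} : Submodule ℂ A) : Set A) := by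
    intro x
    have hidem : ∀ S : FS, (om S : ℂ) • E.symm (sg S) ∈ {e : A | e * e = e} := by
      intro S
      have hS : S + S = S := Finset.union_self (α := ℕ × Fin 3) S
      have h3 : (om S : ℂ) ≠ 0 := by exact_mod_cast (om_pos S).ne'
      change ((om S : ℂ) • E.symm (sg S)) * ((om S : ℂ) • E.symm (sg S)) =
        (om S : ℂ) • E.symm (sg S)
      apply E.injective
      rw [hEm, map_smul, E.apply_symm_apply, map_smul, map_smul, smul_apply, cv_sg, hS, smul_smul,
        smul_smul]
      congr 1
      unfold sc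
      rw [hS]
      push_cast
      field_simp
    have hsg : ∀ S : FS, E.symm (sg S) ∈ Submodule.span ℂ {e : A | e * e = e} := by
      intro S
      have h3 : (om S : ℂ) ≠ 0 := by exact_mod_cast (om_pos S).ne'
      have h4 := Submodule.smul_mem _ ((om S : ℂ)⁻¹) (Submodule.subset_span (hidem S))
      rw [smul_smul, inv_mul_cancel₀ h3, one_smul] at h4
      exact h4
    have hs := (hasSum_sg (E x)).mapL (E.symm.toContinuousLinearEquiv : L FS →L[ℂ] A)
    have hx : (E.symm.toContinuousLinearEquiv : L FS →L[ℂ] A) (E x) = x := E.symm_apply_apply x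
    rw [hx] at hs
    refine mem_closure_of_tendsto hs (Filter.Eventually.of_forall (fun F => ?_))
    refine Submodule.sum_mem _ (fun S _ => ?_)
    rw [map_smul]
    exact Submodule.smul_mem _ _ (hsg S)
  -- the main point
  have hno : ∀ κ : ℂ, κ ≠ 0 → ¬ ∃ x ∈ Metric.ball (E.symm ea) ((1 / 2) ^ 23),
      ∃ y ∈ Metric.ball (E.symm eb) ((1 / 2) ^ 23), x * y = E.symm ea * E.symm eb + κ • (1 : A) := by
    rintro κ hκ ⟨x, hx, y, hy, hxy⟩
    refine no_fact (E x) (E y) κ hκ ?_ ?_ ?_
    · rw [← hEm, hxy, map_add, hEm, E.apply_symm_apply, E.apply_symm_apply, map_smul, hE1]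
    · rw [mem_ball_iff_norm] at hx
      have : ‖E x - ea‖ = ‖x - E.symm ea‖ := by
        rw [← E.norm_map (x - E.symm ea), map_sub, E.apply_symm_apply]
      rw [this]
      exact hx
    · rw [mem_ball_iff_norm] at hy
      have : ‖E y - eb‖ = ‖y - E.symm eb‖ := by
        rw [← E.norm_map (y - E.symm eb), map_sub, E.apply_symm_apply]
      rw [this]
      exact hy
  have hpert : ∀ δ : ℝ, 0 < δ → E.symm ea * E.symm eb + ((δ / 2 : ℝ) : ℂ) • (1 : A) ∈
      Metric.ball (E.symm ea * E.symm eb) δ := by
    intro δ hδ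
    rw [mem_ball_iff_norm, add_sub_cancel_left, norm_smul, h1, mul_one, Complex.norm_real,
      Real.norm_of_nonneg (by positivity)]
    linarith
  have hκ : ∀ δ : ℝ, 0 < δ → ((δ / 2 : ℝ) : ℂ) ≠ 0 := by
    intro δ hδ
    have : (δ / 2 : ℝ) ≠ 0 := by positivity
    exact_mod_cast this
  refine ⟨A, iR, iA, iC, h1, zero_dim hdense, hdense, ?_, ?_⟩
  · intro hop
    have h2 := hop _ ((Metric.isOpen_ball (x := E.symm ea) (ε := (1 / 2) ^ 23)).prod
      (Metric.isOpen_ball (x := E.symm eb) (ε := (1 / 2) ^ 23)))
    have hmem : E.symm ea * E.symm eb ∈ (fun p : A × A => p.1 * p.2) ''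
        (Metric.ball (E.symm ea) ((1 / 2) ^ 23) ×ˢ Metric.ball (E.symm eb) ((1 / 2) ^ 23)) :=
      ⟨(E.symm ea, E.symm eb), ⟨Metric.mem_ball_self (by positivity),
        Metric.mem_ball_self (by positivity)⟩, rfl⟩
    obtain ⟨δ, hδ, hsub⟩ := Metric.isOpen_iff.1 h2 _ hmem
    obtain ⟨⟨x, y⟩, ⟨hx, hy⟩, hxy⟩ := hsub (hpert δ hδ)
    exact hno _ (hκ δ hδ) ⟨x, hx, y, hy, hxy⟩
  · intro hun
    obtain ⟨δ, hδ, h2⟩ := hun ((1 / 2) ^ 23) (by positivity)
    have na : ‖E.symm ea‖ ≤ 1 := by rw [E.symm.norm_map]; exact norm_ea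
    have nb : ‖E.symm eb‖ ≤ 1 := by rw [E.symm.norm_map]; exact norm_eb
    exact hno _ (hκ δ hδ) (h2 _ _ na nb _ (hpert δ hδ))

end Pool.Agent.Results.MP_9cb16a_an.MultiplicationNotOpen
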